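import Pool.Agent.P.MP_d8da86_an.C.Final

open Pool.Agent.P.MP_d8da86_an

namespace Pool.Agent.P.MP_d8da86_an.Old.Criterion

universe u

/-- A complete lattice is the invariant subspace lattice of a self-adjoint operator on a nonzero
Hilbert space exactly when it has more than one element and satisfies the order criterion. -/
theorem result {L : Type u} [CompleteLattice L] :
    (∃ (H : Type u) (_ : NormedAddCommGroup H) (_ : InnerProductSpace ℂ H) (_ : CompleteSpace H)
      (_ : Nontrivial H) (A : H →L[ℂ] H), IsSelfAdjoint A ∧ Nonempty (L ≃o Lat A)) ↔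
    Nontrivial L ∧ CR.Crit L :=
  (CR.main (L := L)).out 0 2

end Pool.Agent.P.MP_d8da86_an.Old.Criterion
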